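import Mathlib

/-!
# Siegel's lemma over a number field with a simple bound
-/

set_option autoImplicit false

open NumberField

namespace Pool.Agent.Helper68.Ru

/-- Siegel's lemma with a constant depending only on the field. -/
theorem siegel_aux (K : Type) [Field K] [NumberField K] : ∃ c : ℝ,
    ∀ (α β : Type) [Fintype α] [Fintype β] (a : Matrix α β (𝓞 K)) (A : ℝ), a ≠ 0 →
      0 < Fintype.card α → Fintype.card α < Fintype.card β →
      (∀ i j, house ((algebraMap (𝓞 K) K) (a i j)) ≤ A) →
      ∃ ξ : β → 𝓞 K, ξ ≠ 0 ∧ a.mulVec ξ = 0 ∧ ∀ l, house ((ξ l : 𝓞 K) : K) ≤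
        c * (c * (Fintype.card β : ℝ) * A) ^
          ((Fintype.card α : ℝ) / ((Fintype.card β : ℝ) - (Fintype.card α : ℝ))) := by
  classical
  exact ⟨_, fun α β _ _ a A ha h1 h2 h3 =>
    NumberField.house.exists_ne_zero_int_vec_house_le K a ha h1 h2 rfl h3 rfl⟩

theorem house_one_le (K : Type) [Field K] [NumberField K] : house (1 : K) ≤ 1 := by
  have h := house_intCast (K := K) 1
  simp only [Int.cast_one, abs_one] at h
  exact h.le

theorem house_zero' (K : Type) [Field K] [NumberField K] : house (0 : K) ≤ 0 := by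
  have h := house_intCast (K := K) 0
  simp only [Int.cast_zero, abs_zero] at h
  exact h.le

theorem siegel (K : Type) [Field K] [NumberField K] : ∃ c : ℝ, 1 ≤ c ∧
    ∀ (α β : Type) [Fintype α] [Fintype β] (a : Matrix α β (𝓞 K)) (A : ℝ), 1 ≤ A →
      2 * Fintype.card α ≤ Fintype.card β → 1 ≤ Fintype.card β →
      (∀ i j, house ((a i j : 𝓞 K) : K) ≤ A) →
      ∃ ξ : β → 𝓞 K, ξ ≠ 0 ∧ a.mulVec ξ = 0 ∧
        ∀ l, house ((ξ l : 𝓞 K) : K) ≤ c * (c * (Fintype.card β : ℝ) * A) := by
  classical
  obtain ⟨c, hc⟩ := siegel_aux K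
  refine ⟨max 1 |c|, le_max_left _ _, ?_⟩
  intro α β _ _ a A hA h2 h1 hb
  set c' := max 1 |c| with hc'
  have hc1 : 1 ≤ c' := le_max_left _ _
  have hcc : |c| ≤ c' := le_max_right _ _
  have hq : (1:ℝ) ≤ (Fintype.card β : ℝ) := by exact_mod_cast h1
  have hbase : 1 ≤ c' * (Fintype.card β : ℝ) * A := by
    have h3 : 1 ≤ c' * (Fintype.card β : ℝ) := one_le_mul_of_one_le_of_one_le hc1 hq
    exact one_le_mul_of_one_le_of_one_le h3 hA
  by_cases ha : a = 0
  · have : Nonempty β := Fintype.card_pos_iff.1 h1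
    obtain ⟨b⟩ := this
    refine ⟨Pi.single b 1, ?_, by rw [ha, Matrix.zero_mulVec], ?_⟩
    · intro h
      have := congrFun h b
      simp at this
    · intro l
      have h4 : house (((Pi.single b 1 : β → 𝓞 K) l : 𝓞 K) : K) ≤ 1 := by
        by_cases hl : l = b
        · subst hl
          simpa using house_one_le K
        · rw [Pi.single_eq_of_ne hl]
          have := house_zero' K
          push_cast
          linarith
      refine h4.trans ?_
      exact one_le_mul_of_one_le_of_one_le hc1 hbase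
  · have hα : 0 < Fintype.card α := by
      by_contra hcon
      have : IsEmpty α := Fintype.card_eq_zero_iff.1 (by omega)
      apply ha
      ext i
      exact (IsEmpty.false i).elim
    obtain ⟨ξ, hξ0, hξ, hbd⟩ := hc α β a A ha hα (by omega) hb
    refine ⟨ξ, hξ0, hξ, fun l => (hbd l).trans ?_⟩
    set x : ℝ := (Fintype.card α : ℝ) / ((Fintype.card β : ℝ) - (Fintype.card α : ℝ)) with hx
    have hαr : (0:ℝ) < (Fintype.card α : ℝ) := by exact_mod_cast hα
    have h2r : 2 * (Fintype.card α : ℝ) ≤ (Fintype.card β : ℝ) := by exact_mod_cast h2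
    have hx0 : 0 ≤ x := by
      rw [hx]
      apply div_nonneg hαr.le
      linarith
    have hx1 : x ≤ 1 := by
      rw [hx, div_le_one (by linarith)]
      linarith
    calc c * (c * (Fintype.card β : ℝ) * A) ^ x
        ≤ |c * (c * (Fintype.card β : ℝ) * A) ^ x| := le_abs_self _
      _ = |c| * |(c * (Fintype.card β : ℝ) * A) ^ x| := abs_mul _ _
      _ ≤ c' * |c * (Fintype.card β : ℝ) * A| ^ x := by
          gcongr
          exact Real.abs_rpow_le_abs_rpow _ _
      _ ≤ c' * (c' * (Fintype.card β : ℝ) * A) ^ x := by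
          gcongr
          rw [abs_mul, abs_mul, abs_of_nonneg (by linarith : (0:ℝ) ≤ (Fintype.card β : ℝ)),
            abs_of_nonneg (by linarith : (0:ℝ) ≤ A)]
          gcongr
      _ ≤ c' * (c' * (Fintype.card β : ℝ) * A) ^ (1:ℝ) := by
          gcongr
      _ = c' * (c' * (Fintype.card β : ℝ) * A) := by rw [Real.rpow_one]

end Pool.Agent.Helper68.Ru
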