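import Pool.Agent.Helper92.Ru.GoalsH

/-!
# H4: auxiliary polynomial. Algebraic part
-/

set_option autoImplicit false

open NumberField MvPolynomial

namespace Pool.Agent.Helper68.Ru

open Pool.Agent.Helper92.Ru

section poly

variable {A : Type} [CommRing A] {m : ℕ} {ι : Type} [Fintype ι]

theorem subM_X (M : Fin m → Matrix ι ι A) (p : Fin m × ι) :
    subM M (X p) = ∑ j, C (M p.1 p.2 j) * X (p.1, j) := by
  simp [subM]

/-- the weight of the block `h` -/
def wt (ι : Type) (h : Fin m) : Fin m × ι → ℕ := fun p => if p.1 = h then 1 else 0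

theorem weight_wt (h : Fin m) (e : Fin m × ι →₀ ℕ) :
    Finsupp.weight (wt ι h) e = ∑ i, e (h, i) := by
  rw [Finsupp.weight_apply, Finsupp.sum_fintype _ _ (fun _ => by simp),
    Fintype.sum_prod_type, Finset.sum_eq_single h]
  · simp [wt]
  · intro b _ hb
    simp [wt, hb]
  · intro hh
    exact absurd (Finset.mem_univ h) hh

theorem MHr_iff {r : Fin m → ℕ} {f : MvPolynomial (Fin m × ι) A} :
    MHr r f ↔ ∀ h, IsWeightedHomogeneous (wt ι h) f (r h) := by
  constructor
  · intro H h d hd
    rw [weight_wt]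
    exact H d (mem_support_iff.2 hd) h
  · intro H e he h
    rw [← weight_wt]
    exact H h (mem_support_iff.1 he)

theorem subM_X_hom (M : Fin m → Matrix ι ι A) (p : Fin m × ι) (h : Fin m) :
    IsWeightedHomogeneous (wt ι h) (subM M (X p)) (wt ι h p) := by
  rw [subM_X]
  refine IsWeightedHomogeneous.sum _ _ _ fun j _ => ?_
  have h1 := (isWeightedHomogeneous_C (wt ι h) (M p.1 p.2 j)).mul
    (isWeightedHomogeneous_X A (wt ι h) (p.1, j))
  rw [zero_add] at h1
  exact h1

theorem subM_monomial (M : Fin m → Matrix ι ι A) (J : Fin m × ι →₀ ℕ) (a : A) :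
    subM M (monomial J a) = C a * ∏ p, subM M (X p) ^ J p := by
  rw [monomial_eq, map_mul, Finsupp.prod_fintype _ _ (fun _ => by simp), map_prod]
  simp only [map_pow]
  congr 1
  exact (subM M).commutes a

theorem subM_monomial_hom (M : Fin m → Matrix ι ι A) (J : Fin m × ι →₀ ℕ) (a : A) (h : Fin m) :
    IsWeightedHomogeneous (wt ι h) (subM M (monomial J a)) (∑ i, J (h, i)) := by
  rw [subM_monomial]
  have h1 : IsWeightedHomogeneous (wt ι h) (∏ p, subM M (X p) ^ J p)
      (∑ p, J p • wt ι h p) :=
    IsWeightedHomogeneous.prod _ _ _ fun p _ => (subM_X_hom M p h).pow (J p)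
  have h2 := (isWeightedHomogeneous_C (wt ι h) a).mul h1
  rw [zero_add] at h2
  have e : ∑ p, J p • wt ι h p = ∑ i, J (h, i) := by
    rw [← weight_wt, Finsupp.weight_apply, Finsupp.sum_fintype _ _ (fun _ => by simp)]
  rwa [e] at h2

theorem subM_MHr (M : Fin m → Matrix ι ι A) {r : Fin m → ℕ} {f : MvPolynomial (Fin m × ι) A}
    (hf : MHr r f) : MHr r (subM M f) := by
  rw [MHr_iff]
  intro h
  rw [f.as_sum, map_sum]
  refine IsWeightedHomogeneous.sum _ _ _ fun J hJ => ?_
  have := subM_monomial_hom M J (coeff J f) h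
  rwa [hf J hJ h] at this

/-- scaling the matrices -/
theorem subM_smul (M : Fin m → Matrix ι ι A) (c : A) {r : Fin m → ℕ}
    {f : MvPolynomial (Fin m × ι) A} (hf : MHr r f) :
    subM (fun h => c • M h) f = C (c ^ ∑ h, r h) * subM M f := by
  conv_lhs => rw [f.as_sum]
  conv_rhs => rw [f.as_sum]
  rw [map_sum, map_sum, Finset.mul_sum]
  refine Finset.sum_congr rfl fun J hJ => ?_
  have hX : ∀ p : Fin m × ι, subM (fun h => c • M h) (X p) = C c * subM M (X p) := by
    intro p
    rw [subM_X, subM_X, Finset.mul_sum]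
    refine Finset.sum_congr rfl fun j _ => ?_
    simp only [Matrix.smul_apply, smul_eq_mul, map_mul, mul_assoc]
  rw [subM_monomial, subM_monomial]
  simp only [hX, mul_pow]
  rw [Finset.prod_mul_distrib, Finset.prod_pow_eq_pow_sum]
  have e : ∑ p, J p = ∑ h, r h := by
    rw [Fintype.sum_prod_type]
    exact Finset.sum_congr rfl fun h _ => hf J hJ h
  rw [e, map_pow]
  ring

/-- base change -/
theorem map_subM {B : Type} [CommRing B] (φ : A →+* B) (M : Fin m → Matrix ι ι A)
    (f : MvPolynomial (Fin m × ι) A) :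
    MvPolynomial.map φ (subM M f) = subM (fun h => (M h).map φ) (MvPolynomial.map φ f) := by
  have h : ((MvPolynomial.map φ).comp (subM M).toRingHom) =
      ((subM (fun h => (M h).map φ)).toRingHom).comp (MvPolynomial.map φ) := by
    refine MvPolynomial.ringHom_ext ?_ ?_
    · intro a
      have h1 : subM M (C a) = C a := (subM M).commutes a
      have h2 : subM (fun h => (M h).map φ) (C (φ a)) = C (φ a) :=
        (subM (fun h => (M h).map φ)).commutes (φ a)
      simp [h1, h2]
    · intro p
      have h1 := subM_X M p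
      have h2 := subM_X (fun h => (M h).map φ) p
      simp [h1, h2]
  exact congrArg (fun g => g f) h

end poly

section mons

variable {m : ℕ} {ι : Type} [Fintype ι]

/-- exponents as finitely supported functions -/
noncomputable def toE (J : Fin m → ι → ℕ) : Fin m × ι →₀ ℕ :=
  Finsupp.equivFunOnFinite.symm (fun p => J p.1 p.2)

@[simp] theorem toE_apply (J : Fin m → ι → ℕ) (p : Fin m × ι) : toE J p = J p.1 p.2 := rfl

theorem toE_inj {J J' : Fin m → ι → ℕ} (h : toE J = toE J') : J = J' := by
  funext a i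
  have := DFunLike.congr_fun h (a, i)
  simpa using this

theorem mem_mons [DecidableEq ι] {r : Fin m → ℕ} {J : Fin m → ι → ℕ} :
    J ∈ mons ι r ↔ ∀ h, ∑ i, J h i = r h := by
  simp [mons]

end mons

end Pool.Agent.Helper68.Ru
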