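import Pool.Agent.Helper68.Ru.Aux0
import Pool.Agent.Helper68.Ru.Siegel

/-!
# H4: auxiliary polynomial
-/

set_option autoImplicit false

open NumberField MvPolynomial

namespace Pool.Agent.Helper68.Ru

open Pool.Agent.Helper92.Ru

/-- the number of unbalanced exponents -/
theorem bad_card (hCheb : Cheb) {m : ℕ} {ι : Type} [Fintype ι] [DecidableEq ι] [Nonempty ι]
    (r : Fin m → ℕ) (hr : ∀ h, 1 ≤ r h) {ε : ℝ} (hε : 0 < ε) :
    (m : ℝ) * ε ^ 2 * (((mons ι r).filter (fun J : Fin m → ι → ℕ => ∃ i,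
        (m : ℝ) * ε < |∑ h, (J h i : ℝ) / (r h : ℝ) - (m : ℝ) / (Fintype.card ι : ℝ)|)).card : ℝ) ≤
      (Fintype.card ι : ℝ) * ((mons ι r).card : ℝ) := by
  classical
  have h1 : (mons ι r).filter (fun J : Fin m → ι → ℕ => ∃ i,
      (m : ℝ) * ε < |∑ h, (J h i : ℝ) / (r h : ℝ) - (m : ℝ) / (Fintype.card ι : ℝ)|) ⊆
      (Finset.univ : Finset ι).biUnion (fun i => (mons ι r).filter (fun J : Fin m → ι → ℕ =>
        (m : ℝ) * ε < |∑ h, (J h i : ℝ) / (r h : ℝ) - (m : ℝ) / (Fintype.card ι : ℝ)|)) := by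
    intro J hJ
    rw [Finset.mem_filter] at hJ
    obtain ⟨i, hi⟩ := hJ.2
    rw [Finset.mem_biUnion]
    exact ⟨i, Finset.mem_univ _, Finset.mem_filter.2 ⟨hJ.1, hi⟩⟩
  have h2 := (Finset.card_le_card h1).trans Finset.card_biUnion_le
  have h3 : (((mons ι r).filter (fun J : Fin m → ι → ℕ => ∃ i,
      (m : ℝ) * ε < |∑ h, (J h i : ℝ) / (r h : ℝ) -
        (m : ℝ) / (Fintype.card ι : ℝ)|)).card : ℝ) ≤
      ∑ i : ι, (((mons ι r).filter (fun J : Fin m → ι → ℕ =>
        (m : ℝ) * ε < |∑ h, (J h i : ℝ) / (r h : ℝ) -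
          (m : ℝ) / (Fintype.card ι : ℝ)|)).card : ℝ) := by
    exact_mod_cast h2
  have h4 : (0:ℝ) ≤ (m : ℝ) * ε ^ 2 := by positivity
  calc _ ≤ (m : ℝ) * ε ^ 2 * ∑ i : ι, (((mons ι r).filter (fun J : Fin m → ι → ℕ =>
        (m : ℝ) * ε < |∑ h, (J h i : ℝ) / (r h : ℝ) -
          (m : ℝ) / (Fintype.card ι : ℝ)|)).card : ℝ) := mul_le_mul_of_nonneg_left h3 h4
    _ = ∑ i : ι, (m : ℝ) * ε ^ 2 * (((mons ι r).filter (fun J : Fin m → ι → ℕ =>
        (m : ℝ) * ε < |∑ h, (J h i : ℝ) / (r h : ℝ) -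
          (m : ℝ) / (Fintype.card ι : ℝ)|)).card : ℝ) := Finset.mul_sum _ _ _
    _ ≤ ∑ _i : ι, ((mons ι r).card : ℝ) :=
        Finset.sum_le_sum fun i _ => hCheb m ι r ε i hr hε
    _ = _ := by simp

/-- packet H4 -/
theorem aux (hCheb : Cheb) (hMC : MonsCard) (hAC : AuxCoeff) : Aux := by
  classical
  intro k _ _ T ι _ _ _ A hdet ε hε
  obtain ⟨c, hc1, hS⟩ := siegel k
  set N : ℕ := Fintype.card ι with hN
  set s : ℕ := Fintype.card (SP k T) with hs
  have hN1 : 1 ≤ N := Fintype.card_pos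
  obtain ⟨⟨c0, hc0⟩, hint⟩ := IsLocalization.exist_integer_multiples_of_finite
    (nonZeroDivisors (𝓞 k)) (S := k) (fun x : SP k T × ι × ι => (A x.1)⁻¹ x.2.1 x.2.2)
  have hc0' : c0 ≠ 0 := nonZeroDivisors.ne_zero hc0
  choose B hB using hint
  have hB' : ∀ v i j, ((B (v, i, j) : 𝓞 k) : k) = (c0 : k) * (A v)⁻¹ i j := by
    intro v i j
    have h := hB (v, i, j)
    rw [Algebra.smul_def] at h
    exact h
  set Bv : SP k T → Matrix ι ι (𝓞 k) := fun v => Matrix.of fun i j => B (v, i, j) with hBv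
  set a0 : ℝ := 1 + ∑ x, house ((B x : 𝓞 k) : k) with ha0
  have ha01 : 1 ≤ a0 := by
    have : 0 ≤ ∑ x, house ((B x : 𝓞 k) : k) := Finset.sum_nonneg fun x _ => house_nonneg _
    rw [ha0]
    linarith
  have hBa0 : ∀ v i j, house ((Bv v i j : 𝓞 k) : k) ≤ a0 := by
    intro v i j
    have := Finset.single_le_sum (f := fun x => house ((B x : 𝓞 k) : k))
      (fun x _ => house_nonneg _) (Finset.mem_univ (v, i, j))
    rw [ha0]
    simp only [hBv, Matrix.of_apply]
    linarith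
  have hNa0 : 1 ≤ (N : ℝ) * a0 := by
    have : (1:ℝ) ≤ N := by exact_mod_cast hN1
    exact one_le_mul_of_one_le_of_one_le this ha01
  refine ⟨max 1 ⌈2 * (s : ℝ) * N / ε ^ 2⌉₊, fun m hm => ?_⟩
  have hm1 : 1 ≤ m := (le_max_left _ _).trans hm
  have hmε : 2 * (s : ℝ) * N ≤ m * ε ^ 2 := by
    have h1 : ⌈2 * (s : ℝ) * N / ε ^ 2⌉₊ ≤ m := (le_max_right _ _).trans hm
    have h2 : 2 * (s : ℝ) * N / ε ^ 2 ≤ m := Nat.ceil_le.1 h1
    rwa [div_le_iff₀ (by positivity)] at h2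
  have hcc : 1 ≤ c * c := one_le_mul_of_one_le_of_one_le hc1 hc1
  have h2N : (1:ℝ) ≤ 2 ^ N := one_le_pow₀ (by norm_num)
  refine ⟨c * c * 2 ^ N * (N * a0), one_le_mul_of_one_le_of_one_le
    (one_le_mul_of_one_le_of_one_le hcc h2N) hNa0, fun r hr => ?_⟩
  set S : ℕ := ∑ h, r h with hSdef
  have hS1 : 1 ≤ S := by
    have h0 : (⟨0, hm1⟩ : Fin m) ∈ Finset.univ := Finset.mem_univ _
    exact (hr ⟨0, hm1⟩).trans (Finset.single_le_sum (f := r) (fun _ _ => Nat.zero_le _) h0)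
  set bad : Finset (Fin m → ι → ℕ) := (mons ι r).filter (fun J : Fin m → ι → ℕ => ∃ i,
    (m : ℝ) * ε < |∑ h, (J h i : ℝ) / (r h : ℝ) - (m : ℝ) / (N : ℝ)|) with hbad
  have hbc : (m : ℝ) * ε ^ 2 * (bad.card : ℝ) ≤ (N : ℝ) * ((mons ι r).card : ℝ) :=
    bad_card hCheb r hr hε
  have hcβ : Fintype.card {J // J ∈ mons ι r} = (mons ι r).card := Fintype.card_coe _
  have hcα : Fintype.card (SP k T × {J // J ∈ bad}) = s * bad.card := by
    rw [Fintype.card_prod, Fintype.card_coe]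
  have hD1 : 1 ≤ (mons ι r).card := (hMC m ι r).1
  have h2 : 2 * Fintype.card (SP k T × {J // J ∈ bad}) ≤
      Fintype.card {J // J ∈ mons ι r} := by
    rw [hcβ, hcα]
    have h3 : (2 * ((s : ℝ) * (bad.card : ℝ))) ≤ ((mons ι r).card : ℝ) := by
      have hNr : (0:ℝ) < N := by exact_mod_cast hN1
      have h4 : (2 * (s : ℝ) * N) * (bad.card : ℝ) ≤ (N : ℝ) * ((mons ι r).card : ℝ) :=
        (mul_le_mul_of_nonneg_right hmε (by positivity)).trans hbc
      have h5 : (N : ℝ) * (2 * ((s : ℝ) * (bad.card : ℝ))) ≤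
          (N : ℝ) * ((mons ι r).card : ℝ) := by
        calc (N : ℝ) * (2 * ((s : ℝ) * (bad.card : ℝ))) =
            (2 * (s : ℝ) * N) * (bad.card : ℝ) := by ring
          _ ≤ _ := h4
      exact le_of_mul_le_mul_left h5 hNr
    exact_mod_cast h3
  set a : Matrix (SP k T × {J // J ∈ bad}) {J // J ∈ mons ι r} (𝓞 k) := fun x J =>
    coeff (toE x.2.1) (subM (fun _ => Bv x.1) (monomial (toE J.1) 1)) with ha
  have hsum : ∀ J ∈ mons ι r, ∑ p, (toE J : Fin m × ι →₀ ℕ) p = S := by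
    intro J hJ
    rw [Fintype.sum_prod_type]
    simp only [toE_apply]
    exact Finset.sum_congr rfl fun h _ => mem_mons.1 hJ h
  have habs : ∀ x J, house ((a x J : 𝓞 k) : k) ≤ ((N : ℝ) * a0) ^ S := by
    intro x J
    have h := hAC k m ι (fun _ => Bv x.1) a0 ha01 (fun _ i j => hBa0 x.1 i j) (toE J.1)
      (toE x.2.1)
    rwa [hsum J.1 J.2] at h
  obtain ⟨ξ, hξ0, hξ, hbd⟩ := hS _ _ a (((N : ℝ) * a0) ^ S) (one_le_pow₀ hNa0) h2
    (by rw [hcβ]; exact hD1) habs
  have hbd' : ∀ l, house ((ξ l : 𝓞 k) : k) ≤ (c * c * 2 ^ N * (N * a0)) ^ S := by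
    intro l
    refine (hbd l).trans ?_
    rw [hcβ]
    have h3 : ((mons ι r).card : ℝ) ≤ (2 ^ N) ^ S := by
      have := (hMC m ι r).2
      rw [← pow_mul]
      exact_mod_cast this
    have h4 : c * c ≤ (c * c) ^ S := le_self_pow₀ hcc (by omega)
    calc c * (c * ((mons ι r).card : ℝ) * (((N : ℝ) * a0) ^ S))
        = (c * c) * ((mons ι r).card : ℝ) * (((N : ℝ) * a0) ^ S) := by ring
      _ ≤ (c * c) ^ S * (2 ^ N) ^ S * (((N : ℝ) * a0) ^ S) := by gcongr
      _ = _ := by rw [← mul_pow, ← mul_pow]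
  -- the polynomial
  set P0 : MvPolynomial (Fin m × ι) (𝓞 k) := ∑ J : {J // J ∈ mons ι r}, monomial (toE J.1) (ξ J)
    with hP0
  have hcoeff : ∀ J : {J // J ∈ mons ι r}, coeff (toE J.1) P0 = ξ J := by
    intro J
    rw [hP0, coeff_sum, Finset.sum_eq_single J]
    · rw [coeff_monomial, if_pos rfl]
    · intro J' _ hJ'
      rw [coeff_monomial, if_neg]
      intro h
      exact hJ' (Subtype.ext (toE_inj h))
    · intro h
      exact absurd (Finset.mem_univ J) h
  have hsupp : ∀ e, coeff e P0 ≠ 0 → ∃ J : {J // J ∈ mons ι r}, e = toE J.1 := by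
    intro e he
    by_contra hcon
    push Not at hcon
    apply he
    rw [hP0, coeff_sum]
    refine Finset.sum_eq_zero fun J _ => ?_
    rw [coeff_monomial, if_neg (fun h => hcon J h.symm)]
  have hM0 : MHr r P0 := by
    intro e he h
    obtain ⟨J, rfl⟩ := hsupp e (mem_support_iff.1 he)
    simp only [toE_apply]
    exact mem_mons.1 J.2 h
  have hcP : ∀ e, coeff e (MvPolynomial.map (algebraMap (𝓞 k) k) P0) =
      ((coeff e P0 : 𝓞 k) : k) := fun e => coeff_map _ _ _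
  have hM : MHr r (MvPolynomial.map (algebraMap (𝓞 k) k) P0) := by
    intro e he h
    refine hM0 e ?_ h
    rw [mem_support_iff] at he ⊢
    intro h0
    apply he
    rw [hcP, h0]
    simp
  refine ⟨MvPolynomial.map (algebraMap (𝓞 k) k) P0, ?_, hM, fun e => ⟨coeff e P0, hcP e⟩,
    ?_, ?_⟩
  · intro h0
    apply hξ0
    funext J
    have h3 : coeff (toE J.1) (MvPolynomial.map (algebraMap (𝓞 k) k) P0) = 0 := by
      rw [h0, coeff_zero]
    rw [hcP, hcoeff] at h3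
    have h4 : (algebraMap (𝓞 k) k) (ξ J) = 0 := h3
    rw [FaithfulSMul.algebraMap_eq_zero_iff] at h4
    simpa using h4
  · intro v e
    rw [hcP]
    by_cases h0 : coeff e P0 = 0
    · rw [h0]
      simp only [map_zero]
      positivity
    · obtain ⟨J, rfl⟩ := hsupp e h0
      rw [hcoeff, ← InfinitePlace.norm_embedding_eq]
      exact (norm_embedding_le_house _ _).trans (hbd' J)
  · intro v e he
    by_contra hbadE
    have hMe : ∀ h, ∑ i, e (h, i) = r h := subM_MHr (fun _ => (A v)⁻¹) hM e he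
    set J' : Fin m → ι → ℕ := fun h i => e (h, i) with hJ'
    have heJ : e = toE J' := by
      ext p
      rfl
    have hJm : J' ∈ mons ι r := mem_mons.2 hMe
    have hJb : J' ∈ bad := by
      rw [hbad, Finset.mem_filter]
      refine ⟨hJm, ?_⟩
      unfold GoodE at hbadE
      push Not at hbadE
      exact hbadE
    have hx := congrFun hξ (v, ⟨J', hJb⟩)
    simp only [Matrix.mulVec, dotProduct, Pi.zero_apply, ha] at hx
    have h5 : coeff e (subM (fun _ => Bv v) P0) = 0 := by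
      rw [hP0, map_sum, coeff_sum, ← hx]
      refine Finset.sum_congr rfl fun J _ => ?_
      have h6 : (monomial (toE J.1) (ξ J) : MvPolynomial (Fin m × ι) (𝓞 k)) =
          C (ξ J) * monomial (toE J.1) 1 := by
        rw [C_mul_monomial, mul_one]
      rw [h6, map_mul]
      have h7 : subM (fun _ : Fin m => Bv v) (C (ξ J)) = C (ξ J) :=
        (subM (fun _ : Fin m => Bv v)).commutes (ξ J)
      rw [h7, coeff_C_mul, ← heJ, mul_comm]
    have h8 := map_subM (algebraMap (𝓞 k) k) (fun _ : Fin m => Bv v) P0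
    have h9 : (fun _ : Fin m => (Bv v).map (algebraMap (𝓞 k) k)) =
        fun _ : Fin m => (c0 : k) • (A v)⁻¹ := by
      funext _
      ext i j
      simp only [Matrix.map_apply, Matrix.smul_apply, smul_eq_mul, hBv, Matrix.of_apply]
      exact hB' v i j
    rw [h9, subM_smul (fun _ : Fin m => (A v)⁻¹) (c0 : k) hM] at h8
    have h10 := congrArg (coeff e) h8
    rw [coeff_map, h5, map_zero, coeff_C_mul] at h10
    have hck : (c0 : k) ≠ 0 := by
      intro h
      apply hc0'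
      have h' : (algebraMap (𝓞 k) k) c0 = 0 := h
      rwa [FaithfulSMul.algebraMap_eq_zero_iff] at h'
    rcases mul_eq_zero.1 h10.symm with h11 | h11
    · exact (pow_ne_zero _ hck) h11
    · exact (mem_support_iff.1 he) h11

end Pool.Agent.Helper68.Ru
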